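import Mathlib

/-!
# Identities of degree three and four of mutations of perm algebras

`Six A` says that the nonassociative algebra `A` satisfies the six identities
`f, WA, H, I, g1, g2`.  In characteristic zero we derive from them the identities used for
the normal form of multilinear elements.
-/

namespace R676Mut

variable {A : Type*} [NonUnitalNonAssocRing A]

/-- The associator. -/
def asc (a b c : A) : A := (a * b) * c - a * (b * c)

/-- The commutator. -/
def com (a b : A) : A := a * b - b * a

/-- The symmetrised product. -/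
def bul (a b : A) : A := a * b + b * a

def fP (x y z : A) : A :=
  (x * y) * z - (y * x) * z + (y * z) * x - (z * y) * x + (z * x) * y - (x * z) * y

def waP (a b c : A) : A := asc a b c + asc b c a - asc b a c

def hP (x y z w : A) : A :=
  ((x * y) * (z * w) - x * ((y * z) * w)) + ((x * z) * (y * w) - x * ((z * y) * w))
  + ((y * x) * (z * w) - y * ((x * z) * w)) + ((y * z) * (x * w) - y * ((z * x) * w))
  + ((z * x) * (y * w) - z * ((x * y) * w)) + ((z * y) * (x * w) - z * ((y * x) * w))

def iP (x y z w : A) : A :=
  asc y (bul x w) z - bul (asc y w z) x - bul (asc y x z) w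

def g1P (a b c d : A) : A :=
  ((a * b) * c) * d + ((c * d) * a) * b - ((a * d) * c) * b - ((c * b) * a) * d

def g2P (a b c d : A) : A :=
  (a * b) * (d * c) + (c * (b * a)) * d + ((b * a) * c) * d - ((a * b) * d) * c
    - ((b * c) * a) * d - ((c * a) * b) * d

/-- The six identities. -/
structure Six (A : Type*) [NonUnitalNonAssocRing A] : Prop where
  f0 : ∀ x y z : A, fP x y z = 0
  wa0 : ∀ a b c : A, waP a b c = 0
  h0 : ∀ x y z w : A, hP x y z w = 0
  i0 : ∀ x y z w : A, iP x y z w = 0
  g10 : ∀ a b c d : A, g1P a b c d = 0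
  g20 : ∀ a b c d : A, g2P a b c d = 0

def t1P (a b c : A) : A := asc a b c + asc c b a
def t2P (a b c : A) : A := asc a b c + asc b c a + asc c a b
def t3P (x y z : A) : A := com x y * z + com y z * x + com z x * y
def t3qP (x y z : A) : A := z * com x y + x * com y z + y * com z x
def t4P (x y z : A) : A := com (x * y) z - com x z * y - x * com y z
def r1P (a b c d : A) : A := a * (b * com c d) - b * (a * com c d)
def r2P (a b c d : A) : A := (com c d * a) * b - (com c d * b) * a
def r3P (a b c d : A) : A := a * (com c d * b) - (a * com c d) * b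
def r4P (a b c d : A) : A := a * (com c d * b) - b * (com c d * a)
def r5P (a b c d : A) : A := (a * b) * com c d - a * (b * com c d) - a * (com c d * b)
def r6P (a b c d : A) : A := com c d * (a * b) - (com c d * a) * b - a * (com c d * b)
def s1P (z a b c : A) : A := z * asc a b c - b * asc a z c
def s1qP (z a b c : A) : A := asc a b c * z - asc a z c * b
def s2P (a x y c : A) : A := asc a (x * y) c - y * asc a x c - asc a x c * y
def s3P (x y b c : A) : A := asc (x * y) b c - asc x b c * y - x * asc y b c

theorem t10 (h : Six A) (a b c : A) : t1P a b c = 0 := by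
  have h1 := h.wa0 a b c
  have h2 := h.wa0 c b a
  simp only [waP] at h1 h2
  have : t1P a b c = (asc a b c + asc b c a - asc b a c) + (asc c b a + asc b a c - asc b c a) := by
    simp only [t1P]; abel
  rw [this, h1, h2, add_zero]

theorem t20 (h : Six A) (a b c : A) : t2P a b c = 0 := by
  have h1 := h.wa0 a b c
  have h2 := h.wa0 b a c
  have h3 := h.wa0 c a b
  simp only [waP] at h1 h2 h3
  have : t2P a b c = (asc a b c + asc b c a - asc b a c) + (asc b a c + asc a c b - asc a b c)
      + (asc c a b + asc a b c - asc a c b) := by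
    simp only [t2P]; abel
  rw [this, h1, h2, h3, add_zero, add_zero]

theorem t30 (h : Six A) (a b c : A) : t3P a b c = 0 := by
  have h1 := h.f0 a b c
  have : t3P a b c = fP a b c := by
    simp only [t3P, fP, com, sub_mul]; abel
  rw [this, h1]

theorem t3q0 (h : Six A) (a b c : A) : t3qP a b c = 0 := by
  have h1 := h.wa0 b a c
  have h2 := h.wa0 b c a
  have h3 := h.f0 a b c
  have : t3qP a b c = waP b a c - waP b c a + fP a b c := by
    simp only [t3qP, waP, fP, com, asc, sub_mul, mul_sub]; abel
  rw [this, h1, h2, h3, sub_zero, add_zero]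

theorem t40 (h : Six A) (a b c : A) : t4P a b c = 0 := by
  have h1 := h.wa0 c a b
  have : t4P a b c = waP c a b := by
    simp only [t4P, waP, com, asc, sub_mul, mul_sub]; abel
  rw [this, h1]

set_option linter.unusedSimpArgs false
set_option linter.unusedSectionVars false

variable (F : Type*) [Field F] [CharZero F] [Module F A]

/-- `3 (z[a,b] + [a,b]z)` is a sum of commutators. -/

theorem zf0 (h : Six A) (z a b : A) :
    (3 : F) • (z * com a b + com a b * z)
      = com (z * a) b - com (z * b) a + com (a * z) b - com (b * z) a := by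
  have key : (3 : F) • (z * com a b + com a b * z)
      = (com (z * a) b - com (z * b) a + com (a * z) b - com (b * z) a)
      + (2 : F) • waP a b z + waP b a z - (3 : F) • waP b z a + (2 : F) • fP a b z := by
    simp only [waP, fP, com, asc, sub_mul, mul_sub]; module
  rw [key, h.wa0, h.wa0, h.wa0, h.f0]; simp


theorem zg0 (h : Six A) (z a b : A) :
    z * com a b = com (z * a) b - com (z * b) a - (z * com a b + com a b * z) := by
  have key : z * com a b = com (z * a) b - com (z * b) a - (z * com a b + com a b * z)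
      + (waP a z b - waP b z a + fP a b z) := by
    simp only [waP, fP, com, asc, sub_mul, mul_sub]; abel
  have h0 : waP a z b - waP b z a + fP a b z = 0 := by
    rw [h.wa0, h.wa0, h.f0]; simp
  rw [h0, add_zero] at key
  exact key

include F

theorem r60 (h : Six A) (a b c d : A) : r6P a b c d = 0 := by
  have key : r6P a b c d =
      (-1 : F) • (g2P d c a b)
      + (1 : F) • ((fP a c d) * b)
      + (1 : F) • (g2P c d a b)
      + (1 : F) • (waP a (c * d) b)
      + (-1 : F) • (waP a (d * c) b) := by
    simp only [fP, g2P, r6P, waP, asc, com, bul, mul_add, mul_sub, add_mul, sub_mul]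
    module
  rw [key]
  simp only [h.wa0, h.f0, h.g20, mul_zero, zero_mul, smul_zero, add_zero]

theorem r30 (h : Six A) (a b c d : A) : r3P a b c d = 0 := by
  have key : r3P a b c d =
      (1/3 : F) • (a * (fP b c d))
      + (1 : F) • (g1P c a d b)
      + (1/3 : F) • (g2P c d b a)
      + (2/3 : F) • (g2P b c d a)
      + (-2/3 : F) • (a * (waP d c b))
      + (-1/3 : F) • (g2P a c d b)
      + (-1/3 : F) • ((waP a c d) * b)
      + (-2/3 : F) • (t3qP (c * b) a d)
      + (-1/3 : F) • (waP (d * b) a c)
      + (1/3 : F) • (fP (d * b) a c)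
      + (-2/3 : F) • (g2P d a b c)
      + (2/3 : F) • (waP (c * b) d a)
      + (1/3 : F) • (waP (b * d) a c)
      + (-1/3 : F) • ((t1P a b d) * c)
      + (-2/3 : F) • (fP (a * d) b c)
      + (-1/3 : F) • (g2P a b d c)
      + (-1 : F) • (g1P a c b d)
      + (1/3 : F) • ((fP b c d) * a)
      + (-1/3 : F) • ((t3qP a c d) * b)
      + (-2/3 : F) • ((waP c a d) * b)
      + (1/3 : F) • (waP (c * d) a b)
      + (1/3 : F) • (g2P c a b d)
      + (-1/3 : F) • (a * (waP b c d))
      + (-1/3 : F) • ((fP a b d) * c)
      + (1/3 : F) • (fP (a * c) b d)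
      + (1/3 : F) • ((t1P b d c) * a) := by
    simp only [fP, g1P, g2P, r3P, t1P, t3qP, waP, asc, com, bul, mul_add, mul_sub, add_mul, sub_mul]
    module
  rw [key]
  simp only [t10 h, t3q0 h, h.wa0, h.f0, h.g10, h.g20, mul_zero, zero_mul, smul_zero, add_zero]

theorem r50 (h : Six A) (a b c d : A) : r5P a b c d = 0 := by
  have key : r5P a b c d =
      (1 : F) • (waP (c * d) a b)
      + (-1 : F) • (r3P a b c d)
      + (-1 : F) • (waP (d * c) a b)
      + (1 : F) • (r6P a b c d) := by
    simp only [r3P, r5P, r6P, waP, asc, com, bul, mul_add, mul_sub, add_mul, sub_mul]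
    module
  rw [key]
  simp only [r30 F h, r60 F h, h.wa0, mul_zero, zero_mul, smul_zero, add_zero]

theorem r40 (h : Six A) (a b c d : A) : r4P a b c d = 0 := by
  have key : r4P a b c d =
      (1 : F) • (t1P (c * d) b a)
      + (1 : F) • (r6P b a c d)
      + (-1 : F) • (t1P (d * c) b a)
      + (-1 : F) • (r5P a b c d) := by
    simp only [r4P, r5P, r6P, t1P, asc, com, bul, mul_add, mul_sub, add_mul, sub_mul]
    module
  rw [key]
  simp only [r50 F h, r60 F h, t10 h, mul_zero, zero_mul, smul_zero, add_zero]

theorem r10 (h : Six A) (a b c d : A) : r1P a b c d = 0 := by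
  have key : r1P a b c d =
      (-1/2 : F) • (a * (waP d c b))
      + (1/2 : F) • (d * (t1P a b c))
      + (-1/2 : F) • (r5P a c b d)
      + (-1/2 : F) • (t3qP (b * c) a d)
      + (-1/2 : F) • (a * (waP b d c))
      + (-1/2 : F) • (t3qP (d * c) a b)
      + (1/2 : F) • (r4P b d a c)
      + (1/2 : F) • (b * (waP d a c))
      + (1/2 : F) • (r5P d c a b)
      + (1 : F) • (a * (t3qP b c d))
      + (-1/2 : F) • (r4P a d b c)
      + (1/2 : F) • (b * (waP a c d))
      + (1/2 : F) • (t3qP (a * c) b d)
      + (-1/2 : F) • (r4P a b c d)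
      + (-1 : F) • (b * (fP a c d))
      + (1/2 : F) • (r5P b c a d)
      + (-1/2 : F) • (d * (t1P b a c)) := by
    simp only [fP, r1P, r4P, r5P, t1P, t3qP, waP, asc, com, bul, mul_add, mul_sub, add_mul, sub_mul]
    module
  rw [key]
  simp only [r40 F h, r50 F h, t10 h, t3q0 h, h.wa0, h.f0, mul_zero, zero_mul, smul_zero, add_zero]

theorem r20 (h : Six A) (a b c d : A) : r2P a b c d = 0 := by
  have key : r2P a b c d =
      (1 : F) • (r6P b a c d)
      + (-1 : F) • (t3qP (d * c) a b)
      + (-1 : F) • (r1P a b c d)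
      + (-1 : F) • (r6P a b c d)
      + (1 : F) • (t3qP (c * d) a b) := by
    simp only [r1P, r2P, r6P, t3qP, asc, com, bul, mul_add, mul_sub, add_mul, sub_mul]
    module
  rw [key]
  simp only [r10 F h, r60 F h, t3q0 h, mul_zero, zero_mul, smul_zero, add_zero]

theorem s1q0 (h : Six A) (a b c d : A) : s1qP a b c d = 0 := by
  have key : s1qP a b c d =
      (-1 : F) • ((t3qP a b d) * c)
      + (-1 : F) • (g1P b a d c)
      + (1 : F) • ((waP b c d) * a)
      + (1 : F) • (r4P a c b d)
      + (1 : F) • (r3P c a b d)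
      + (-1 : F) • ((fP b c d) * a)
      + (-1 : F) • (r3P a c b d)
      + (1 : F) • (r2P a c b d)
      + (-1 : F) • ((waP b d a) * c) := by
    simp only [fP, g1P, r2P, r3P, r4P, s1qP, t3qP, waP, asc, com, bul, mul_add, mul_sub, add_mul, sub_mul]
    module
  rw [key]
  simp only [r20 F h, r30 F h, r40 F h, t3q0 h, h.wa0, h.f0, h.g10, mul_zero, zero_mul, smul_zero, add_zero]

theorem s30 (h : Six A) (a b c d : A) : s3P a b c d = 0 := by
  have key : s3P a b c d =
      (1 : F) • (r3P b d a c)
      + (1 : F) • ((fP a b d) * c)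
      + (-1 : F) • (s1qP a b c d)
      + (1 : F) • (waP a (b * c) d)
      + (1 : F) • ((waP a b c) * d)
      + (-1 : F) • (s1qP b a c d)
      + (-1 : F) • (b * (waP a c d))
      + (-1 : F) • (r3P b c a d)
      + (-1 : F) • (r5P b c a d)
      + (-1 : F) • (g2P b a d c)
      + (-1 : F) • ((t2P a b d) * c)
      + (-1 : F) • (waP a b (c * d)) := by
    simp only [fP, g2P, r3P, r5P, s1qP, s3P, t2P, waP, asc, com, bul, mul_add, mul_sub, add_mul, sub_mul]
    module
  rw [key]
  simp only [r30 F h, r50 F h, s1q0 F h, t20 h, h.wa0, h.f0, h.g20, mul_zero, zero_mul, smul_zero, add_zero]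

theorem s20 (h : Six A) (a b c d : A) : s2P a b c d = 0 := by
  have key : s2P a b c d =
      (1 : F) • (s1qP b a c d)
      + (-1 : F) • (c * (t1P a b d))
      + (1 : F) • (s3P a b c d)
      + (-1 : F) • (s3P c d b a)
      + (-1 : F) • ((t1P a b c) * d)
      + (1 : F) • (t1P (c * d) b a) := by
    simp only [s1qP, s2P, s3P, t1P, asc, com, bul, mul_add, mul_sub, add_mul, sub_mul]
    module
  rw [key]
  simp only [s1q0 F h, s30 F h, t10 h, mul_zero, zero_mul, smul_zero, add_zero]

theorem s10 (h : Six A) (a b c d : A) : s1P a b c d = 0 := by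
  have key : s1P a b c d =
      (1 : F) • (r3P b d a c)
      + (1 : F) • (iP a b d c)
      + (-2 : F) • (s2P b c a d)
      + (-1 : F) • (s1qP a b c d) := by
    simp only [iP, r3P, s1P, s1qP, s2P, asc, com, bul, mul_add, mul_sub, add_mul, sub_mul]
    module
  rw [key]
  simp only [h.i0, r30 F h, s1q0 F h, s20 F h, mul_zero, zero_mul, smul_zero, add_zero]

end R676Mut
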